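import Pool.Agent.Lib.AO.NoSys
import Pool.Agent.Lib.AO.RedC

/-!
MP_7bfba2_an: the doubly periodic Ambjorn-Olesen system at the borderline ratio `ρ = 1`.

Q1 is answered in the negative: for `cos² θ` small and `N` large, on the square torus with `ρ = 1` and all
`N` vortices at one point, condition (A) holds and the system has no solution.
-/

set_option autoImplicit false

open Complex Set Filter
open scoped Real ContDiff Topology

noncomputable section

namespace Pool.Agent.Results.MP_7bfba2_an.NonexistenceRhoOne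

/-- The Laplacian of a real function on the plane (identified with `ℂ`). -/
def Lap (h : ℂ → ℝ) (z : ℂ) : ℝ :=
  fderiv ℝ (fun y => fderiv ℝ h y 1) z 1 + fderiv ℝ (fun y => fderiv ℝ h y Complex.I) z Complex.I

/-- A flat torus, given by a basis `ω₁, ω₂` of its period lattice. -/
structure Torus where
  ω₁ : ℂ
  ω₂ : ℂ
  indep : ((starRingEnd ℂ) ω₁ * ω₂).im ≠ 0

/-- The period lattice `ℤ ω₁ + ℤ ω₂`. -/
def Torus.lattice (T : Torus) : Set ℂ := {z | ∃ m n : ℤ, z = m * T.ω₁ + n * T.ω₂}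

/-- The area of the torus (of a fundamental cell). -/
def Torus.area (T : Torus) : ℝ := |((starRingEnd ℂ) T.ω₁ * T.ω₂).im|

/-- The constants `g > 0`, `φ₀ > 0` and `θ ∈ (0, π/2)`. -/
structure Params where
  g : ℝ
  φ : ℝ
  θ : ℝ
  g_pos : 0 < g
  φ_pos : 0 < φ
  θ_pos : 0 < θ
  θ_lt : θ < π / 2

/-- A vortex distribution: finitely many points, distinct on the torus, with multiplicities `≥ 1`. -/
structure Vortices (T : Torus) where
  m : ℕ
  p : Fin m → ℂ
  n : Fin m → ℕ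
  pos : ∀ i, 1 ≤ n i
  distinct : ∀ i j, i ≠ j → p i - p j ∉ T.lattice

/-- The total vortex number `N`. -/
def Vortices.total {T : Torus} (V : Vortices T) : ℕ := ∑ i, V.n i

/-- The set of all points of the plane lying over a vortex. -/
def Vortices.pts {T : Torus} (V : Vortices T) : Set ℂ := {z | ∃ i, z - V.p i ∈ T.lattice}

/-- `(u, w)` is a solution of the Ambjorn-Olesen system: `w` is smooth and periodic, `u` is smooth and periodic
away from the vortices, `u - 2 nᵢ log |z - pᵢ|` extends smoothly across the vortex `pᵢ` (this is the meaning of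
the Dirac sources), and the two equations hold away from the vortices. -/
structure IsSolution (T : Torus) (P : Params) (V : Vortices T) (u w : ℂ → ℝ) : Prop where
  w_smooth : ContDiff ℝ ∞ w
  w_per : ∀ z, w (z + T.ω₁) = w z ∧ w (z + T.ω₂) = w z
  u_smooth : ∀ z, z ∉ V.pts → ContDiffAt ℝ ∞ u z
  u_per : ∀ z, z ∉ V.pts → u (z + T.ω₁) = u z ∧ u (z + T.ω₂) = u z
  u_sing : ∀ i, ∃ h : ℂ → ℝ, ContDiffAt ℝ ∞ h (V.p i) ∧
    ∀ᶠ z in 𝓝[≠] (V.p i), u z = 2 * V.n i * Real.log ‖z - V.p i‖ + h z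
  eq_u : ∀ z, z ∉ V.pts → -(Lap u z) = P.g ^ 2 * Real.exp (w z) + 4 * P.g ^ 2 * Real.exp (u z)
  eq_w : ∀ z, z ∉ V.pts → Lap w z =
    P.g ^ 2 / (2 * Real.cos P.θ ^ 2) * (Real.exp (w z) - P.φ ^ 2) + 2 * P.g ^ 2 * Real.exp (u z)

/-- The number `ρ = (4πN - g²φ₀²|Ω|)/(8π sin² θ)`. -/
def rho (T : Torus) (P : Params) (N : ℕ) : ℝ :=
  (4 * π * N - P.g ^ 2 * P.φ ^ 2 * T.area) / (8 * π * Real.sin P.θ ^ 2)

/-- Condition (A): `g²φ₀² < 4πN/|Ω| < g²φ₀²/cos² θ`. -/
def CondA (T : Torus) (P : Params) (N : ℕ) : Prop :=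
  P.g ^ 2 * P.φ ^ 2 < 4 * π * N / T.area ∧ 4 * π * N / T.area < P.g ^ 2 * P.φ ^ 2 / Real.cos P.θ ^ 2

/-- The assertion of Q1: if (A) holds and `ρ < 2`, there is a solution for every vortex distribution. -/
def Q1 : Prop := ∀ (T : Torus) (P : Params) (V : Vortices T), CondA T P V.total → rho T P V.total < 2 →
  ∃ u w : ℂ → ℝ, IsSolution T P V u w

/-- The square torus of side `L`. -/
def square (L : ℝ) (hL : 0 < L) : Torus where
  ω₁ := L
  ω₂ := L * Complex.I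
  indep := by simp [hL.ne']

/-- One vortex of multiplicity `N` at the point `p`. -/
def single (T : Torus) (N : ℕ) (hN : 1 ≤ N) (p : ℂ) : Vortices T where
  m := 1
  p := fun _ => p
  n := fun _ => N
  pos := fun _ => hN
  distinct := fun i j h => absurd (Subsingleton.elim i j) h

namespace Aux

theorem lattice_square (L : ℝ) (hL : 0 < L) : (square L hL).lattice = AO.Lat L := by
  ext z
  simp only [Torus.lattice, square, AO.Lat, mem_ofPred_eq]
  constructor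
  · rintro ⟨m, n, h⟩; exact ⟨m, n, by rw [h]; ring⟩
  · rintro ⟨m, n, h⟩; exact ⟨m, n, by rw [h]; ring⟩

theorem area_square (L : ℝ) (hL : 0 < L) : (square L hL).area = L ^ 2 := by
  have : ((starRingEnd ℂ) (L : ℂ) * ((L : ℂ) * Complex.I)).im = L ^ 2 := by simp; ring
  simp only [Torus.area, square]
  rw [this, abs_of_pos (by positivity)]

theorem pts_single (L : ℝ) (hL : 0 < L) (N : ℕ) (hN : 1 ≤ N) (p z : ℂ) :
    z ∈ (single (square L hL) N hN p).pts ↔ z - p ∈ AO.Lat L := by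
  rw [← lattice_square L hL]
  constructor
  · rintro ⟨i, h⟩; exact h
  · intro h; exact ⟨(0 : Fin 1), h⟩

theorem total_single (T : Torus) (N : ℕ) (hN : 1 ≤ N) (p : ℂ) : (single T N hN p).total = N := by
  show ∑ _i : Fin 1, N = N
  simp

theorem lat_closed (L : ℝ) (hL : 0 < L) (z : ℂ) (hz : z ∉ AO.Lat L) : ∀ᶠ y in 𝓝 z, y ∉ AO.Lat L := by
  have h1 : 0 < AO.dl L z := (AO.dl_pos_iff hL z).2 hz
  filter_upwards [AO.continuous_dl.continuousAt.eventually (lt_mem_nhds h1)] with y hy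
  exact (AO.dl_pos_iff hL y).1 hy

theorem sub_cont (p z : ℂ) : Tendsto (fun y : ℂ => y - p) (𝓝 z) (𝓝 (z - p)) :=
  (continuous_id.sub continuous_const).tendsto z

theorem punctured (L : ℝ) (hL : 0 < L) (p : ℂ) : ∀ᶠ y in 𝓝[≠] p, y - p ∉ AO.Lat L := by
  have h1 : ∀ᶠ y in 𝓝 p, ‖y - p‖ < L / 2 := by
    have : Tendsto (fun y : ℂ => ‖y - p‖) (𝓝 p) (𝓝 ‖p - p‖) := (sub_cont p p).norm
    rw [sub_self, norm_zero] at this
    exact this.eventually (gt_mem_nhds (by positivity))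
  have h2 : ∀ᶠ y in 𝓝[≠] p, ‖y - p‖ < L / 2 := h1.filter_mono nhdsWithin_le_nhds
  filter_upwards [h2, self_mem_nhdsWithin] with y hy hne
  rw [← AO.dl_pos_iff hL, AO.dl_eq_norm' hL _ hy.le]
  exact norm_pos_iff.2 (sub_ne_zero.2 hne)

/-- Reduction to the normalised system. -/
theorem reduce (P : Params) (N : ℕ) (hN : 1 ≤ N) (L : ℝ) (hL : 0 < L) (p : ℂ)
    (hr : rho (square L hL) P N = 1) (u w : ℂ → ℝ)
    (h : IsSolution (square L hL) P (single (square L hL) N hN p) u w) :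
    ∃ A B : ℂ → ℝ, AO.Sys (Real.cos P.θ ^ 2) (P.g * P.φ * L) N A B := by
  classical
  set u' : ℂ → ℝ := fun z => if z - p ∈ AO.Lat L then 0 else u z with hu'
  have hev : ∀ z, z - p ∉ AO.Lat L → u' =ᶠ[𝓝 z] u := by
    intro z hz
    filter_upwards [(sub_cont p z).eventually (lat_closed L hL _ hz)] with y hy
    simp only [hu', hy, if_false]
  have hval : ∀ z, z - p ∉ AO.Lat L → u' z = u z := fun z hz => (hev z hz).eq_of_nhds
  have hpts : ∀ z, z - p ∉ AO.Lat L → z ∉ (single (square L hL) N hN p).pts := fun z hz h =>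
    hz ((pts_single L hL N hN p z).1 h)
  have hper : AO.Per L u' := by
    have e1 : ∀ z k : ℂ, k ∈ AO.Lat L → (z + k ∈ AO.Lat L ↔ z ∈ AO.Lat L) := by
      intro z k hk
      refine ⟨fun hz => ?_, fun hz => AO.lat_add hz hk⟩
      have := AO.lat_add hz (AO.lat_neg hk)
      simpa using this
    have k1 : (L : ℂ) ∈ AO.Lat L := ⟨1, 0, by simp⟩
    have k2 : (L : ℂ) * Complex.I ∈ AO.Lat L := ⟨0, 1, by simp⟩
    constructor
    · intro z
      by_cases hz : z - p ∈ AO.Lat L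
      · have hz' : z + L - p ∈ AO.Lat L := by
          have := (e1 (z - p) _ k1).2 hz
          rwa [show z - p + L = z + L - p by ring] at this
        simp only [hu', hz, hz', if_true]
      · have hz' : z + L - p ∉ AO.Lat L := by
          have := fun h' => hz ((e1 (z - p) _ k1).1 h')
          rwa [show z - p + L = z + L - p by ring] at this
        rw [hval _ hz, hval _ hz']
        exact (h.u_per z (hpts z hz)).1
    · intro z
      by_cases hz : z - p ∈ AO.Lat L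
      · have hz' : z + L * Complex.I - p ∈ AO.Lat L := by
          have := (e1 (z - p) _ k2).2 hz
          rwa [show z - p + L * Complex.I = z + L * Complex.I - p by ring] at this
        simp only [hu', hz, hz', if_true]
      · have hz' : z + L * Complex.I - p ∉ AO.Lat L := by
          have := fun h' => hz ((e1 (z - p) _ k2).1 h')
          rwa [show z - p + L * Complex.I = z + L * Complex.I - p by ring] at this
        rw [hval _ hz, hval _ hz']
        exact (h.u_per z (hpts z hz)).2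
  obtain ⟨h0, hh0, hs0⟩ := h.u_sing (0 : Fin 1)
  have hsin : 0 < Real.sin P.θ := Real.sin_pos_of_pos_of_lt_pi P.θ_pos (by linarith [P.θ_lt, Real.pi_pos])
  have harea : 4 * π * N - P.g ^ 2 * P.φ ^ 2 * L ^ 2 = 8 * π * Real.sin P.θ ^ 2 := by
    unfold rho at hr
    rw [area_square] at hr
    have hne : 8 * π * Real.sin P.θ ^ 2 ≠ 0 := by positivity
    rw [div_eq_one_iff_eq hne] at hr
    exact hr
  refine AO.sys_of_orig P.g P.φ P.θ L N p P.g_pos P.φ_pos P.θ_pos P.θ_lt hL hN harea u' w h.w_smooth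
    ⟨fun z => (h.w_per z).1, fun z => (h.w_per z).2⟩ hper ?_ h0 hh0 ?_ ?_ ?_
  · intro z hz
    exact (h.u_smooth z (hpts z hz)).congr_of_eventuallyEq (hev z hz)
  · filter_upwards [hs0, punctured L hL p] with z hz1 hz2
    rw [hval z hz2]; exact hz1
  · intro z hz
    rw [AO.lap_congr _ _ z (hev z hz), hval z hz]
    exact h.eq_u z (hpts z hz)
  · intro z hz
    rw [hval z hz]
    exact h.eq_w z (hpts z hz)

/-- The borderline ratio and large vortex number imply (A). -/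
theorem condA (P : Params) (N : ℕ) (hN : 3 ≤ N) (L : ℝ) (hL : 0 < L) (hr : rho (square L hL) P N = 1) :
    CondA (square L hL) P N := by
  have hsin : 0 < Real.sin P.θ := Real.sin_pos_of_pos_of_lt_pi P.θ_pos (by linarith [P.θ_lt, Real.pi_pos])
  have hcos : 0 < Real.cos P.θ := Real.cos_pos_of_mem_Ioo ⟨by linarith [P.θ_pos, Real.pi_pos], P.θ_lt⟩
  have hsc : Real.sin P.θ ^ 2 + Real.cos P.θ ^ 2 = 1 := Real.sin_sq_add_cos_sq P.θ
  have harea : 4 * π * N - P.g ^ 2 * P.φ ^ 2 * L ^ 2 = 8 * π * Real.sin P.θ ^ 2 := by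
    unfold rho at hr
    rw [area_square] at hr
    have hne : 8 * π * Real.sin P.θ ^ 2 ≠ 0 := by positivity
    rw [div_eq_one_iff_eq hne] at hr
    exact hr
  have hN3 : (3 : ℝ) ≤ N := by exact_mod_cast hN
  have hπ := Real.pi_pos
  have hs2 : 0 < Real.sin P.θ ^ 2 := by positivity
  have hc2 : 0 < Real.cos P.θ ^ 2 := by positivity
  have hL2 : 0 < L ^ 2 := by positivity
  unfold CondA
  rw [area_square]
  constructor
  · rw [lt_div_iff₀ hL2]
    have : 0 < 8 * π * Real.sin P.θ ^ 2 := by positivity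
    linarith
  · rw [div_lt_div_iff₀ hL2 hc2]
    have h1 : 0 < π * Real.sin P.θ ^ 2 * (N - 2) := mul_pos (by positivity) (by linarith)
    have h2 : Real.cos P.θ ^ 2 = 1 - Real.sin P.θ ^ 2 := by linarith
    rw [h2]
    nlinarith [h1, harea]

/-- The side of the square torus with ratio one. -/
theorem exists_side (P : Params) (N : ℕ) (hN : 3 ≤ N) : ∃ (L : ℝ) (hL : 0 < L), rho (square L hL) P N = 1 ∧
    (P.g * P.φ * L) ^ 2 = 4 * π * N - 8 * π * Real.sin P.θ ^ 2 := by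
  have hsin : 0 < Real.sin P.θ := Real.sin_pos_of_pos_of_lt_pi P.θ_pos (by linarith [P.θ_lt, Real.pi_pos])
  have hN3 : (3 : ℝ) ≤ N := by exact_mod_cast hN
  have hπ := Real.pi_pos
  have hs1 : Real.sin P.θ ^ 2 ≤ 1 := by nlinarith [Real.sin_sq_add_cos_sq P.θ, sq_nonneg (Real.cos P.θ)]
  have hpos : 0 < 4 * π * N - 8 * π * Real.sin P.θ ^ 2 := by nlinarith
  have hgφ : 0 < P.g * P.φ := mul_pos P.g_pos P.φ_pos
  have hL : 0 < √(4 * π * N - 8 * π * Real.sin P.θ ^ 2) / (P.g * P.φ) := div_pos (Real.sqrt_pos.2 hpos) hgφ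
  have key : (P.g * P.φ * (√(4 * π * N - 8 * π * Real.sin P.θ ^ 2) / (P.g * P.φ))) ^ 2 =
      4 * π * N - 8 * π * Real.sin P.θ ^ 2 := by
    rw [mul_div_cancel₀ _ hgφ.ne', Real.sq_sqrt hpos.le]
  refine ⟨_, hL, ?_, key⟩
  unfold rho
  rw [area_square, div_eq_one_iff_eq (by positivity)]
  have : P.g ^ 2 * P.φ ^ 2 * (√(4 * π * N - 8 * π * Real.sin P.θ ^ 2) / (P.g * P.φ)) ^ 2 =
    4 * π * N - 8 * π * Real.sin P.θ ^ 2 := by rw [← mul_pow, ← mul_pow, key]
  rw [this]; ring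

end Aux

open Aux

/-- **Q1 is false.**  There is `c₀ > 0` such that for every angle with `cos² θ ≤ c₀` there is `N₀` with: for all
`N ≥ N₀` and all `g, φ₀ > 0` there is a square torus with `ρ = 1` satisfying (A) on which the system with one vortex
of multiplicity `N`, wherever it is placed, has no solution. -/
theorem result : (¬ Q1) ∧ ∃ c₀ : ℝ, 0 < c₀ ∧ ∀ θ : ℝ, 0 < θ → θ < π / 2 → Real.cos θ ^ 2 ≤ c₀ →
    ∃ N₀ : ℕ, ∀ (N : ℕ) (hN : 1 ≤ N), N₀ ≤ N → ∀ P : Params, P.θ = θ →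
    ∃ (L : ℝ) (hL : 0 < L), rho (square L hL) P N = 1 ∧ CondA (square L hL) P N ∧
      ∀ p : ℂ, ¬ ∃ u w : ℂ → ℝ, IsSolution (square L hL) P (single (square L hL) N hN p) u w := by
  have main : ∃ c₀ : ℝ, 0 < c₀ ∧ ∀ θ : ℝ, 0 < θ → θ < π / 2 → Real.cos θ ^ 2 ≤ c₀ →
      ∃ N₀ : ℕ, ∀ (N : ℕ) (hN : 1 ≤ N), N₀ ≤ N → ∀ P : Params, P.θ = θ →
      ∃ (L : ℝ) (hL : 0 < L), rho (square L hL) P N = 1 ∧ CondA (square L hL) P N ∧
        ∀ p : ℂ, ¬ ∃ u w : ℂ → ℝ, IsSolution (square L hL) P (single (square L hL) N hN p) u w := by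
    obtain ⟨c₀, hc₀, hno⟩ := AO.no_sys
    refine ⟨c₀, hc₀, fun θ h1 h2 h3 => ?_⟩
    have hcos : 0 < Real.cos θ := Real.cos_pos_of_mem_Ioo ⟨by linarith [Real.pi_pos], h2⟩
    obtain ⟨ℓ₀, hℓ₀, hno'⟩ := hno (Real.cos θ ^ 2) (by positivity) h3
    obtain ⟨N₁, hN₁⟩ := exists_nat_ge (ℓ₀ ^ 2 + 3)
    refine ⟨N₁, fun N hN hNN P hP => ?_⟩
    have hNr : ℓ₀ ^ 2 + 3 ≤ N := hN₁.trans (by exact_mod_cast hNN)
    have hN3 : 3 ≤ N := by
      have : (3 : ℝ) ≤ N := by nlinarith [sq_nonneg ℓ₀]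
      exact_mod_cast this
    obtain ⟨L, hL, hr, hside⟩ := exists_side P N hN3
    refine ⟨L, hL, hr, condA P N hN3 L hL hr, ?_⟩
    rintro p ⟨u, w, hs⟩
    obtain ⟨A, B, hS⟩ := reduce P N hN L hL p hr u w hs
    rw [hP] at hS
    refine hno' _ N A B ?_ hS
    have hpos : 0 < P.g * P.φ * L := mul_pos (mul_pos P.g_pos P.φ_pos) hL
    have hs1 : Real.sin P.θ ^ 2 ≤ 1 := by nlinarith [Real.sin_sq_add_cos_sq P.θ, sq_nonneg (Real.cos P.θ)]
    have hπ3 := Real.pi_gt_three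
    have : ℓ₀ ^ 2 ≤ (P.g * P.φ * L) ^ 2 := by
      rw [hside]
      nlinarith [mul_nonneg Real.pi_pos.le (sub_nonneg.2 hs1), sq_nonneg ℓ₀]
    exact le_of_sq_le_sq this hpos.le
  refine ⟨?_, main⟩
  intro hQ
  obtain ⟨c₀, hc₀, hmain⟩ := main
  obtain ⟨θ, hθ1, hθ2, hθ3⟩ : ∃ θ : ℝ, 0 < θ ∧ θ < π / 2 ∧ Real.cos θ ^ 2 ≤ c₀ := by
    have hc : ContinuousAt (fun x : ℝ => Real.cos x ^ 2) (π / 2) := by fun_prop
    have h0 : Real.cos (π / 2) ^ 2 < c₀ := by simp [hc₀]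
    have h1 : ∀ᶠ x in 𝓝 (π / 2), Real.cos x ^ 2 < c₀ := hc.eventually (gt_mem_nhds h0)
    have h2 : ∀ᶠ x in 𝓝[<] (π / 2), Real.cos x ^ 2 < c₀ := h1.filter_mono nhdsWithin_le_nhds
    have h3 : ∀ᶠ x in 𝓝[<] (π / 2), (0 : ℝ) < x :=
      (lt_mem_nhds (by positivity : (0 : ℝ) < π / 2)).filter_mono nhdsWithin_le_nhds
    obtain ⟨x, hx1, hx2, hx3⟩ := (h2.and (h3.and self_mem_nhdsWithin)).exists
    exact ⟨x, hx2, hx3, hx1.le⟩
  obtain ⟨N₀, hN₀⟩ := hmain θ hθ1 hθ2 hθ3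
  obtain ⟨L, hL, hr, hA, hno⟩ := hN₀ (max 1 N₀) (le_max_left _ _) (le_max_right _ _)
    ⟨1, 1, θ, one_pos, one_pos, hθ1, hθ2⟩ rfl
  refine hno 0 (hQ _ _ _ ?_ ?_)
  · rw [total_single]; exact hA
  · rw [total_single, hr]; norm_num

end Pool.Agent.Results.MP_7bfba2_an.NonexistenceRhoOne

end
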